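import Pool.Agent.H62.LP.T2

set_option autoImplicit false

open MeasureTheory ProbabilityTheory Filter Topology
open scoped ENNReal NNReal

namespace Pool.Agent.H57.LP

open Pool.Agent.H62.LP

lemma nm_step (b c z : V3) (h : Adj b c) : nm (c - z) ≤ nm (b - z) + 1 := by
  unfold nm
  refine Finset.sup_le (fun i _ => ?_)
  have h1 : ((b - z) i).natAbs ≤ Finset.univ.sup (fun i => ((b - z) i).natAbs) :=
    Finset.le_sup (f := fun i => ((b - z) i).natAbs) (Finset.mem_univ i)
  have h2 : |b i - c i| ≤ 1 := by
    have h3 : |b i - c i| ≤ ∑ j, |b j - c j| :=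
      Finset.single_le_sum (f := fun j => |b j - c j|) (fun j _ => abs_nonneg _)
        (Finset.mem_univ i)
    rw [show ∑ j, |b j - c j| = 1 from h] at h3
    exact h3
  have h3 : ((c - z) i).natAbs ≤ ((b - z) i).natAbs + 1 := by
    simp only [Pi.sub_apply]
    rw [abs_le] at h2
    omega
  omega

theorem pf_SPH : T_SPH := by
  intro K z n hK hz hy r hr
  obtain ⟨y, hy, hny⟩ := hy
  have key : ∀ v, Relation.ReflTransGen (fun u v => u ∈ K ∧ v ∈ K ∧ Adj u v) z v →
      ∀ r ≤ nm (v - z), ∃ u ∈ K, nm (u - z) = r := by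
    intro v hv
    induction hv with
    | refl =>
      intro r hr
      refine ⟨z, hz, ?_⟩
      have h0 : nm (z - z) = 0 := by
        unfold nm
        simp
      omega
    | @tail b c hab hbc ih =>
      intro r hr
      by_cases h : r ≤ nm (b - z)
      · exact ih r h
      · refine ⟨c, hbc.2.1, ?_⟩
        have := nm_step b c z hbc.2.2
        omega
  exact key y (hK z hz y hy) r (hr.trans hny)

end Pool.Agent.H57.LP
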