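import Pool.Agent.H62.LP.T1
import Pool.Agent.H62.LP.T2

set_option autoImplicit false

open MeasureTheory ProbabilityTheory Filter Topology
open scoped ENNReal NNReal

namespace Pool.Agent.H57.LP

open Pool.Agent.H62.LP

/-- Translation of loops. -/
def cyE (z : V3) : Cycle V3 ≃ Cycle V3 where
  toFun := fun c => c.map (· + z)
  invFun := fun c => c.map (· - z)
  left_inv := fun c => by
    induction c using Quotient.inductionOn with
    | _ l =>
      change Cycle.map _ (Cycle.map _ ((l : Cycle V3))) = (l : Cycle V3)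
      rw [Cycle.map_coe, Cycle.map_coe, List.map_map]
      have : (fun x : V3 => x - z) ∘ (fun x => x + z) = id := by
        funext x
        simp
      rw [this, List.map_id]
  right_inv := fun c => by
    induction c using Quotient.inductionOn with
    | _ l =>
      change Cycle.map _ (Cycle.map _ ((l : Cycle V3))) = (l : Cycle V3)
      rw [Cycle.map_coe, Cycle.map_coe, List.map_map]
      have : (fun x : V3 => x + z) ∘ (fun x => x - z) = id := by
        funext x
        simp
      rw [this, List.map_id]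

lemma fat_trans (hGTR : T_GTR) (κ : ℝ≥0) (n : ℕ) (A B : Set V3) (z : V3)
    (hAB : ∀ x, x ∈ A → x + z ∈ B) (h : Fat κ n A) : Fat κ n B := by
  obtain ⟨w, hw0, hwm, hwp⟩ := h
  refine ⟨fun x => w (x - z), ?_, ?_, ?_⟩
  · intro x hx
    refine hw0 _ (fun h => hx ?_)
    have := hAB _ h
    rwa [sub_add_cancel] at this
  · rw [← hwm]
    unfold mass
    exact (Equiv.subRight z).tsum_eq (fun x => w x)
  · intro x
    have h1 : pot (fun x => w (x - z)) x = pot w (x - z) := by
      unfold pot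
      rw [← (Equiv.addRight z).tsum_eq (fun y => Gr x y * w (y - z))]
      refine tsum_congr (fun y => ?_)
      change Gr x (y + z) * w (y + z - z) = _
      rw [add_sub_cancel_right]
      have := (hGTR (x - z) y z).1
      rw [sub_add_cancel] at this
      rw [this]
    rw [h1]
    exact hwp _

lemma sum_inv_aux (n r : ℕ) (A : Finset ℕ)
    (hA : A.image (fun r' : ℕ => ((r : ℤ) - r').natAbs) ⊆ Finset.range n)
    (hinj : Set.InjOn (fun r' : ℕ => ((r : ℤ) - r').natAbs) (A : Set ℕ)) :
    ∑ r' ∈ A, (1 : ℝ) / (1 + ((r : ℤ) - r').natAbs : ℕ) ≤ 1 + Real.log n := by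
  have h1 : ∑ r' ∈ A, (1 : ℝ) / (1 + ((r : ℤ) - r').natAbs : ℕ) =
      ∑ j ∈ A.image (fun r' : ℕ => ((r : ℤ) - r').natAbs), (1 : ℝ) / (1 + j : ℕ) := by
    rw [Finset.sum_image hinj]
  rw [h1]
  refine (Finset.sum_le_sum_of_subset_of_nonneg hA (fun _ _ _ => by positivity)).trans ?_
  have := harmonic_le_one_add_log n
  unfold harmonic at this
  push_cast at this
  refine le_trans (le_of_eq ?_) this
  refine Finset.sum_congr rfl (fun j _ => ?_)
  rw [one_div]
  push_cast
  rw [add_comm]

lemma sum_inv (n r : ℕ) (hr : r ∈ Finset.Icc 1 n) :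
    ∑ r' ∈ Finset.Icc 1 n, (1 : ℝ) / (1 + ((r : ℤ) - r').natAbs : ℕ) ≤
      2 * (1 + Real.log n) := by
  rw [Finset.mem_Icc] at hr
  rw [← Finset.sum_filter_add_sum_filter_not (Finset.Icc 1 n) (fun r' => r' ≤ r)]
  have h1 := sum_inv_aux n r ((Finset.Icc 1 n).filter (fun r' => r' ≤ r)) (by
    intro j hj
    simp only [Finset.mem_image, Finset.mem_filter, Finset.mem_Icc, Finset.mem_range] at hj ⊢
    obtain ⟨r', hr', rfl⟩ := hj
    omega) (by
    intro a ha b hb hab
    simp only [Finset.coe_filter, Finset.mem_Icc, Set.mem_ofPred_eq] at ha hb hab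
    omega)
  have h2 := sum_inv_aux n r ((Finset.Icc 1 n).filter (fun r' => ¬ r' ≤ r)) (by
    intro j hj
    simp only [Finset.mem_image, Finset.mem_filter, Finset.mem_Icc, Finset.mem_range] at hj ⊢
    obtain ⟨r', hr', rfl⟩ := hj
    omega) (by
    intro a ha b hb hab
    simp only [Finset.coe_filter, Finset.mem_Icc, Set.mem_ofPred_eq] at ha hb hab
    omega)
  linarith

lemma nm_tri (x y : V3) : nm x ≤ nm (x - y) + nm y := by
  have key : ∀ (u : V3) (i : Fin 3), (u i).natAbs ≤ nm u := fun u i =>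
    Finset.le_sup (f := fun i => (u i).natAbs) (Finset.mem_univ i)
  have h : Finset.univ.sup (fun i => (x i).natAbs) ≤ nm (x - y) + nm y := by
    refine Finset.sup_le (fun i _ => ?_)
    have h1 := key (x - y) i
    have h2 := key y i
    simp only [Pi.sub_apply] at h1
    omega
  exact h

lemma nm_symm (x y : V3) : nm (x - y) = nm (y - x) := by
  unfold nm
  congr 1
  funext i
  simp only [Pi.sub_apply]
  omega

lemma nm_dist (x y : V3) : ((nm x : ℤ) - nm y).natAbs ≤ nm (x - y) := by
  have h1 := nm_tri x y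
  have h2 := nm_tri y x
  rw [nm_symm y x] at h2
  omega

open Classical in
lemma erg_bound (C₀ : ℝ≥0) (hC : HGU C₀) (n : ℕ) (v : ℕ → V3)
    (hv : ∀ r ∈ Finset.Icc 1 n, nm (v r) = r) (e : V3 → ℝ≥0∞)
    (he : e = fun x => if x ∈ (Finset.Icc 1 n).image v then 1 else 0) :
    mass e = n ∧ erg e e ≤ ENNReal.ofReal (2 * C₀ * n * (1 + Real.log n)) := by
  have hinj : Set.InjOn v (Finset.Icc 1 n : Finset ℕ) := by
    intro a ha b hb hab
    have h1 := hv a ha
    have h2 := hv b hb
    rw [hab] at h1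
    omega
  constructor
  · unfold mass
    rw [tsum_eq_sum (s := (Finset.Icc 1 n).image v)]
    · rw [Finset.sum_image hinj]
      have : ∀ r ∈ Finset.Icc 1 n, e (v r) = 1 := by
        intro r hr
        rw [he]
        simp only
        rw [if_pos (Finset.mem_image_of_mem v hr)]
      rw [Finset.sum_congr rfl this]
      simp
    · intro x hx
      rw [he]
      simp only
      rw [if_neg hx]
  · have h1 : erg e e = ∑ x ∈ (Finset.Icc 1 n).image v, ∑ y ∈ (Finset.Icc 1 n).image v,
        Gr x y := by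
      unfold erg
      rw [tsum_eq_sum (s := (Finset.Icc 1 n).image v)]
      · refine Finset.sum_congr rfl (fun x hx => ?_)
        rw [tsum_eq_sum (s := (Finset.Icc 1 n).image v)]
        · refine Finset.sum_congr rfl (fun y hy => ?_)
          rw [he]
          simp only
          rw [if_pos hx, if_pos hy, one_mul, one_mul]
        · intro y hy
          rw [he]
          simp only
          rw [if_neg hy, mul_zero, zero_mul]
      · intro x hx
        rw [ENNReal.tsum_eq_zero]
        intro y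
        rw [he]
        simp only
        rw [if_neg hx, zero_mul, zero_mul]
    rw [h1, Finset.sum_image hinj]
    have h2 : ∀ r ∈ Finset.Icc 1 n, ∑ y ∈ (Finset.Icc 1 n).image v, Gr (v r) y ≤
        ENNReal.ofReal (C₀ * (2 * (1 + Real.log n))) := by
      intro r hr
      rw [Finset.sum_image hinj]
      have h3 : ∀ r' ∈ Finset.Icc 1 n, Gr (v r) (v r') ≤
          ENNReal.ofReal (C₀ * ((1 : ℝ) / (1 + ((r : ℤ) - r').natAbs : ℕ))) := by
        intro r' hr'
        refine (hC.2 (v r) (v r')).trans ?_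
        have h4 : ((r : ℤ) - r').natAbs ≤ nm (v r - v r') := by
          have := nm_dist (v r) (v r')
          rwa [hv r hr, hv r' hr'] at this
        have h5 : (C₀ : ℝ≥0∞) / ((1 + nm (v r - v r') : ℕ) : ℝ≥0∞) ≤
            (C₀ : ℝ≥0∞) / ((1 + ((r : ℤ) - r').natAbs : ℕ) : ℝ≥0∞) := by
          refine ENNReal.div_le_div_left ?_ _
          exact_mod_cast Nat.add_le_add_left h4 1
        refine h5.trans (le_of_eq ?_)
        rw [mul_one_div, ENNReal.ofReal_div_of_pos (by positivity), ENNReal.ofReal_coe_nnreal,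
          ENNReal.ofReal_natCast]
      refine (Finset.sum_le_sum h3).trans ?_
      rw [← ENNReal.ofReal_sum_of_nonneg (fun _ _ => by positivity), ← Finset.mul_sum]
      exact ENNReal.ofReal_le_ofReal
        (mul_le_mul_of_nonneg_left (sum_inv n r hr) (by positivity))
    refine (Finset.sum_le_sum h2).trans ?_
    rw [Finset.sum_const, Nat.card_Icc, nsmul_eq_mul, Nat.add_sub_cancel,
      ← ENNReal.ofReal_natCast, ← ENNReal.ofReal_mul (by positivity)]
    refine ENNReal.ofReal_le_ofReal (le_of_eq ?_)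
    ring

lemma real_bound (X L : ℝ) (hX : 0 < X) (hL : 0 ≤ L) :
    X / (1 + X) / (1 + L) ≤ 1 - Real.exp (-(X / (1 + L))) := by
  have h1 : 0 < 1 + L := by linarith
  set x : ℝ := X / (1 + L) with hx
  have hx0 : 0 < x := div_pos hX h1
  have h2 : 1 + x ≤ Real.exp x := by
    have := Real.add_one_le_exp x
    linarith
  have h3 : Real.exp (-x) ≤ 1 / (1 + x) := by
    rw [Real.exp_neg, ← one_div]
    exact one_div_le_one_div_of_le (by linarith) h2
  have h4 : X / (1 + X) / (1 + L) ≤ 1 - 1 / (1 + x) := by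
    have h5 : 1 - 1 / (1 + x) = X / (1 + L + X) := by
      rw [hx]
      field_simp
      ring
    rw [h5, div_div]
    exact div_le_div_of_nonneg_left hX.le (by linarith) (by nlinarith)
  linarith

open Classical in
theorem pf_BAS (hMUS : T_MUS) (hVOI : T_VOI) (hSPH : T_SPH) (hTRL : T_TRL) (hGTR : T_GTR) :
    T_BAS := by
  intro C₀ c₁ κ M hC hM hH ε hε
  have hC0 : (0 : ℝ) < C₀ := by
    have : (1 : ℝ) ≤ C₀ := by exact_mod_cast hC.1
    linarith
  have hc1 : (0 : ℝ) < c₁ := by exact_mod_cast hH.1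
  have hε0 : (0 : ℝ) < ε := by exact_mod_cast hε
  set X : ℝ := ε * c₁ / (2 * C₀) with hX
  have hX0 : 0 < X := by positivity
  refine ⟨X / (1 + X), by positivity, ?_⟩
  intro n hn s hs K z hK hz hy
  have hn0 : (0 : ℝ) < n := by exact_mod_cast hn
  have hn1 : (1 : ℝ) ≤ n := by exact_mod_cast hn
  set L : ℝ := Real.log n with hL
  have hL0 : 0 ≤ L := Real.log_nonneg hn1
  -- the points
  have hu : ∀ r : ℕ, ∃ u : V3, r ≤ n → u ∈ K ∧ nm (u - z) = r := by
    intro r
    by_cases hr : r ≤ n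
    · obtain ⟨u, hu, hur⟩ := hSPH K z n hK hz hy r hr
      exact ⟨u, fun _ => ⟨hu, hur⟩⟩
    · exact ⟨0, fun h => absurd h hr⟩
  choose u hu using hu
  set v : ℕ → V3 := fun r => u r - z with hv
  have hvn : ∀ r ∈ Finset.Icc 1 n, nm (v r) = r := by
    intro r hr
    rw [Finset.mem_Icc] at hr
    exact (hu r hr.2).2
  set e : V3 → ℝ≥0∞ := fun x => if x ∈ (Finset.Icc 1 n).image v then 1 else 0 with he
  obtain ⟨hmass, herg⟩ := erg_bound C₀ hC n v hvn e he
  have hesupp : ∀ x, e x ≠ 0 → ∃ r, 1 ≤ r ∧ r ≤ n ∧ x = u r - z := by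
    intro x hx
    by_cases h : x ∈ (Finset.Icc 1 n).image v
    · rw [Finset.mem_image] at h
      obtain ⟨r, hr, rfl⟩ := h
      rw [Finset.mem_Icc] at hr
      exact ⟨r, hr.1, hr.2, rfl⟩
    · exact absurd (by rw [he]; simp only; rw [if_neg h]) hx
  have hhl := hH.2.2 n s hn hs e (by
    intro x hx
    obtain ⟨r, hr1, hr2, rfl⟩ := hesupp x hx
    change nm (u r - z - 0) ≤ 2 * n
    rw [sub_zero, (hu r hr2).2]
    omega) (by rw [hmass]; exact ENNReal.natCast_ne_top n)
  rw [hmass] at hhl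
  set h := hitFat κ M n s e with hh
  -- lower bound for the measure
  have hlow : ENNReal.ofReal (c₁ / (2 * C₀ * (1 + L))) ≤ h := by
    have h1 : (c₁ : ℝ≥0∞) * (n : ℝ≥0∞) ^ 2 ≤
        (n : ℝ≥0∞) * ENNReal.ofReal (2 * C₀ * n * (1 + L)) * h :=
      hhl.trans (by gcongr)
    have h2 : ENNReal.ofReal (c₁ / (2 * C₀ * (1 + L))) =
        ((c₁ : ℝ≥0∞) * (n : ℝ≥0∞) ^ 2) /
          ((n : ℝ≥0∞) * ENNReal.ofReal (2 * C₀ * n * (1 + L))) := by
      rw [← ENNReal.ofReal_coe_nnreal, ← ENNReal.ofReal_natCast,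
        ← ENNReal.ofReal_pow hn0.le, ← ENNReal.ofReal_mul hc1.le,
        ← ENNReal.ofReal_mul hn0.le, ← ENNReal.ofReal_div_of_pos (by positivity)]
      congr 1
      field_simp
    rw [h2]
    refine ENNReal.div_le_of_le_mul ?_
    rw [mul_comm h]
    exact h1
  -- the loops
  set P : Set (Cycle V3) := {c | (∀ x ∈ c, nm (x - z) ≤ M * n) ∧ (∃ x ∈ c, e (x - z) ≠ 0) ∧
    Fat κ n {x | x ∈ c ∧ x - z ∈ Rg s n}} with hP
  have hcount : h ≤ ∑' c : Cycle V3, (if c ∈ P then mu c else 0) := by
    have h1 : h = ∑' c : Cycle V3, mu c * (if (∀ x ∈ c, x ∈ Bl 0 (M * n)) ∧ (∃ x ∈ c, e x ≠ 0) ∧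
        Fat κ n {x | x ∈ c ∧ x ∈ Rg s n} then 1 else 0) := by
      rw [(hMUS 3).1]
      unfold hitFat at hh
      rw [hh]
      refine tsum_congr (fun l => ?_)
      rw [mul_ite, mul_one, mul_zero]
      exact if_congr Iff.rfl rfl rfl
    rw [h1, ← (cyE z).tsum_eq (fun c => if c ∈ P then mu c else 0)]
    refine ENNReal.tsum_le_tsum (fun c => ?_)
    rw [mul_ite, mul_one, mul_zero]
    split_ifs with h2 h3 h3
    · change mu c ≤ mu (c.map (· + z))
      rw [(hTRL 3 z).1 c]
    · exfalso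
      apply h3
      obtain ⟨h4, ⟨x, hx, hex⟩, h6⟩ := h2
      refine ⟨?_, ⟨x + z, ?_, ?_⟩, ?_⟩
      · intro y hy
        change y ∈ c.map (· + z) at hy
        rw [Cycle.mem_map] at hy
        obtain ⟨a, ha, rfl⟩ := hy
        have h7 : nm (a - 0) ≤ M * n := h4 a ha
        rw [sub_zero] at h7
        rw [add_sub_cancel_right]
        exact h7
      · change x + z ∈ c.map (· + z)
        rw [Cycle.mem_map]
        exact ⟨x, hx, rfl⟩
      · rw [add_sub_cancel_right]
        exact hex
      · refine fat_trans hGTR κ n _ _ z ?_ h6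
        rintro y ⟨hy1, hy2⟩
        refine ⟨?_, ?_⟩
        · change y + z ∈ c.map (· + z)
          rw [Cycle.mem_map]
          exact ⟨y, hy1, rfl⟩
        · rw [add_sub_cancel_right]
          exact hy2
    · exact bot_le
    · exact le_refl _
  have : Countable (Cycle V3) := by
    unfold Cycle
    infer_instance
  have hx0 : 0 ≤ X / (1 + L) := by positivity
  have hvoi := (hVOI (Cycle V3) (inten 3 ε) P (X / (1 + L)) hx0).1 (by
    have h1 : ∑' c : Cycle V3, (if c ∈ P then ((inten 3 ε c : ℝ≥0) : ℝ≥0∞) else 0) =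
        ε * ∑' c : Cycle V3, (if c ∈ P then mu c else 0) := by
      rw [← ENNReal.tsum_mul_left]
      refine tsum_congr (fun c => ?_)
      split_ifs
      · unfold inten
        rw [ENNReal.coe_mul, ENNReal.coe_toNNReal ((hMUS 3).2 c)]
      · rw [mul_zero]
    have h2 : ENNReal.ofReal (X / (1 + L)) =
        ε * ENNReal.ofReal (c₁ / (2 * C₀ * (1 + L))) := by
      rw [← ENNReal.ofReal_coe_nnreal (p := ε), ← ENNReal.ofReal_mul hε0.le]
      congr 1
      rw [hX]
      field_simp
    have h3 : ENNReal.ofReal (X / (1 + L)) ≤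
        ∑' c : Cycle V3, (if c ∈ P then ((inten 3 ε c : ℝ≥0) : ℝ≥0∞) else 0) := by
      rw [h1, h2]
      gcongr
      exact hlow.trans hcount
    convert h3)
  have hreal := real_bound X L hX0 hL0
  refine (ENNReal.ofReal_le_ofReal hreal).trans (hvoi.trans ?_)
  unfold soup
  refine measure_mono ?_
  rintro N ⟨c, hc, hNc⟩
  obtain ⟨h1, ⟨x, hx, hex⟩, h3⟩ := hc
  refine ⟨c, ⟨⟨hNc, h1⟩, h3, ?_⟩⟩
  obtain ⟨r, hr1, hr2, hxr⟩ := hesupp _ hex
  have hxu : x = u r := by
    have := congrArg (· + z) hxr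
    simpa using this
  exact ⟨u r, (hu r hr2).1, x, hx, by rw [hxu]; exact Relation.ReflTransGen.refl⟩

end Pool.Agent.H57.LP
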