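import Pool.Agent.H62.LP.T1

set_option autoImplicit false

open MeasureTheory ProbabilityTheory Filter Topology
open scoped ENNReal NNReal

namespace Pool.Agent.H57.LP

open Pool.Agent.H62.LP

theorem pf_BIJ : T_BIJ := by
  intro Λ _ q σ hq
  have h := Measure.infinitePi_map_piCongrLeft (X := fun _ : Λ => ℕ)
    (fun c => poissonMeasure (q c)) σ.symm
  have hq' : (fun c => poissonMeasure (q (σ.symm c))) = fun c => poissonMeasure (q c) := by
    funext c
    have := hq (σ.symm c)
    rw [Equiv.apply_symm_apply] at this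
    rw [this]
  rw [hq'] at h
  unfold pois
  rw [← h]
  conv_rhs => rw [← h]
  rw [h]
  congr 1
  funext N c
  have h2 := Equiv.piCongrLeft_apply_apply (fun _ : Λ => ℕ) σ.symm N (σ c)
  rw [Equiv.symm_apply_apply] at h2
  exact h2.symm

end Pool.Agent.H57.LP
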