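import Pool.Agent.H62.LP.T1

set_option autoImplicit false

open MeasureTheory ProbabilityTheory Filter Topology
open scoped ENNReal NNReal

namespace Pool.Agent.H57.LP

open Pool.Agent.H62.LP

theorem pf_CS : T_CS := by
  intro ι w f g
  letI : MeasurableSpace ι := ⊤
  have hpq : (2 : ℝ).HolderConjugate 2 := by
    rw [Real.holderConjugate_iff]
    norm_num
  have hw : ∀ i, w i ^ (1 / 2 : ℝ) * w i ^ (1 / 2 : ℝ) = w i := by
    intro i
    rw [← ENNReal.rpow_add_of_nonneg _ _ (by norm_num) (by norm_num)]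
    norm_num
  have h := ENNReal.lintegral_mul_le_Lp_mul_Lq (Measure.count : Measure ι) hpq
    (f := fun i => w i ^ (1 / 2 : ℝ) * f i) (g := fun i => w i ^ (1 / 2 : ℝ) * g i)
    (measurable_from_top).aemeasurable (measurable_from_top).aemeasurable
  rw [lintegral_count' measurable_from_top, lintegral_count' measurable_from_top,
    lintegral_count' measurable_from_top] at h
  have e1 : ∀ i, ((fun i => w i ^ (1 / 2 : ℝ) * f i) * fun i => w i ^ (1 / 2 : ℝ) * g i) i
      = w i * (f i * g i) := by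
    intro i
    simp only [Pi.mul_apply]
    calc w i ^ (1 / 2 : ℝ) * f i * (w i ^ (1 / 2 : ℝ) * g i)
        = (w i ^ (1 / 2 : ℝ) * w i ^ (1 / 2 : ℝ)) * (f i * g i) := by ring
      _ = _ := by rw [hw]
  have e2 : ∀ (f : ι → ℝ≥0∞) (i : ι), (w i ^ (1 / 2 : ℝ) * f i) ^ (2 : ℝ) = w i * f i ^ 2 := by
    intro f i
    rw [ENNReal.rpow_two, mul_pow, pow_two, hw]
  simp only [e1, e2] at h
  have h2 := pow_le_pow_left' h 2
  refine h2.trans (le_of_eq ?_)
  rw [mul_pow]
  have e3 : ∀ x : ℝ≥0∞, (x ^ (1 / 2 : ℝ)) ^ 2 = x := by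
    intro x
    rw [← ENNReal.rpow_natCast, ← ENNReal.rpow_mul]
    norm_num
  rw [e3, e3]

end Pool.Agent.H57.LP
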