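import Pool.Agent.H62.LP.T1

set_option autoImplicit false

open MeasureTheory ProbabilityTheory Filter Topology
open scoped ENNReal NNReal

namespace Pool.Agent.H57.LP

open Pool.Agent.H62.LP

theorem pf_FMS : T_FMS := by
  intro Λ _ Φ hΦ
  have h : {N : Λ → ℕ | Φ (sp N)} =
      ⋃ F : {F : Finset Λ // Φ (F : Set Λ)}, ⋂ c ∈ F.1, {N : Λ → ℕ | 1 ≤ N c} := by
    ext N
    simp only [Set.mem_setOf_eq, Set.mem_iUnion, Set.mem_iInter]
    rw [hΦ]
    constructor
    · rintro ⟨F, hF, hF2⟩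
      exact ⟨⟨F, hF2⟩, fun c hc => hF hc⟩
    · rintro ⟨F, hF⟩
      exact ⟨F.1, fun c hc => hF c hc, F.2⟩
  rw [h]
  refine MeasurableSet.iUnion (fun F => ?_)
  refine Finset.measurableSet_biInter _ (fun c _ => ?_)
  exact measurableSet_le measurable_const (measurable_pi_apply c)

end Pool.Agent.H57.LP
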