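import Pool.Agent.H62.LP.T1

set_option autoImplicit false

open MeasureTheory ProbabilityTheory Filter Topology
open scoped ENNReal NNReal

namespace Pool.Agent.H57.LP

open Pool.Agent.H62.LP

open Classical in
theorem pf_IND (hMRG : T_MRG) : T_IND := by
  intro Λ _ q ι I E hdis hE hdep s
  induction s using Finset.induction_on with
  | empty => simp
  | insert i s hi ih =>
    rw [Finset.prod_insert hi, ← ih]
    have hR : MeasurableSet (⋂ j ∈ s, E j) := Finset.measurableSet_biInter _ (fun j _ => hE j)
    have hset : (⋂ j ∈ insert i s, E j) = E i ∩ ⋂ j ∈ s, E j := by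
      rw [Finset.set_biInter_insert]
    have hmeas : Measurable
        (fun (p : (Λ → ℕ) × (Λ → ℕ)) c => if c ∈ I i then p.1 c else p.2 c) := by
      rw [measurable_pi_iff]
      intro c
      by_cases hc : c ∈ I i
      · simp only [hc, if_true]
        exact (measurable_pi_apply c).comp measurable_fst
      · simp only [hc, if_false]
        exact (measurable_pi_apply c).comp measurable_snd
    have hpre : (fun (p : (Λ → ℕ) × (Λ → ℕ)) c => if c ∈ I i then p.1 c else p.2 c) ⁻¹'
        (E i ∩ ⋂ j ∈ s, E j) = (E i) ×ˢ (⋂ j ∈ s, E j) := by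
      ext p
      simp only [Set.mem_preimage, Set.mem_inter_iff, Set.mem_iInter, Set.mem_prod]
      refine and_congr ?_ ?_
      · refine hdep i _ _ (fun c hc => ?_)
        rw [if_pos hc]
      · refine forall_congr' (fun j => forall_congr' (fun hj => ?_))
        refine hdep j _ _ (fun c hc => ?_)
        have hij : i ≠ j := fun h => hi (h ▸ hj)
        have hc' : c ∉ I i := fun h => (Set.disjoint_left.mp (hdis i j hij)) h hc
        rw [if_neg hc']
    calc pois q (⋂ j ∈ insert i s, E j) = pois q (E i ∩ ⋂ j ∈ s, E j) := by rw [hset]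
      _ = (((pois q).prod (pois q)).map
            (fun (p : (Λ → ℕ) × (Λ → ℕ)) c => if c ∈ I i then p.1 c else p.2 c))
            (E i ∩ ⋂ j ∈ s, E j) := by
          have h5 : ((pois q).prod (pois q)).map
              (fun (p : (Λ → ℕ) × (Λ → ℕ)) c => if c ∈ I i then p.1 c else p.2 c) = pois q := by
            convert hMRG Λ q (I i)
          rw [h5]
      _ = ((pois q).prod (pois q)) ((E i) ×ˢ (⋂ j ∈ s, E j)) := by
          rw [Measure.map_apply hmeas ((hE i).inter hR), hpre]
      _ = pois q (E i) * pois q (⋂ j ∈ s, E j) := Measure.prod_prod _ _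

end Pool.Agent.H57.LP
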