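import Pool.Agent.H62.LP.T1
import Pool.Agent.H62.LP.T2

set_option autoImplicit false

open MeasureTheory ProbabilityTheory Filter Topology
open scoped ENNReal NNReal

namespace Pool.Agent.H57.LP

open Pool.Agent.H62.LP

lemma conn_mono {S T : Set Lp} (h : S ⊆ T) {x y : V3} (hc : Conn S x y) : Conn T x y := by
  unfold Conn at hc ⊢
  induction hc with
  | refl => exact Relation.ReflTransGen.refl
  | tail _ hbc ih =>
    obtain ⟨c, hc, hu, hv⟩ := hbc
    exact ih.tail ⟨c, h hc, hu, hv⟩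

lemma ins_ins (z : V3) (r : ℕ) (S : Set Lp) : Ins z r (Ins z r S) = Ins z r S := by
  ext c
  simp only [Ins, Set.mem_ofPred_eq]
  tauto

lemma ins_mono (z : V3) (r : ℕ) {S T : Set Lp} (h : S ⊆ T) : Ins z r S ⊆ Ins z r T := by
  intro c hc
  exact ⟨h hc.1, hc.2⟩

open Classical in
lemma conn_fin (z : V3) (r : ℕ) (S : Set Lp) (x y : V3) (h : Conn (Ins z r S) x y) :
    ∃ F : Finset Lp, (F : Set Lp) ⊆ S ∧ Conn (Ins z r (F : Set Lp)) x y := by
  unfold Conn at h
  induction h with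
  | refl => exact ⟨∅, by simp, Relation.ReflTransGen.refl⟩
  | @tail b c hab hbc ih =>
    obtain ⟨F, hF, hF2⟩ := ih
    obtain ⟨e, he, hb, hc⟩ := hbc
    refine ⟨insert e F, ?_, ?_⟩
    · intro g hg
      rw [Finset.coe_insert, Set.mem_insert_iff] at hg
      rcases hg with hg | hg
      · rw [hg]
        exact he.1
      · exact hF hg
    · have h1 : Conn (Ins z r ((insert e F : Finset Lp) : Set Lp)) x b :=
        conn_mono (ins_mono z r (by simp)) hF2
      refine Relation.ReflTransGen.tail h1 ⟨e, ⟨by simp, he.2⟩, hb, hc⟩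

lemma countable_lp : Countable Lp := by
  unfold Pool.Agent.H62.LP.Lp Cycle
  infer_instance

theorem pf_LME (hFMS : T_FMS) : T_LME := by
  intro z r K₁ K₂
  refine ⟨?_, ?_, ?_⟩
  · have := countable_lp
    refine hFMS Pool.Agent.H62.LP.Lp (fun S => Lk z r K₁ K₂ S) (fun S => ?_)
    constructor
    · rintro ⟨x, hx, y, hy, hc⟩
      obtain ⟨F, hF, hF2⟩ := conn_fin z r S x y hc
      exact ⟨F, hF, x, hx, y, hy, hF2⟩
    · rintro ⟨F, hF, x, hx, y, hy, hc⟩
      exact ⟨x, hx, y, hy, conn_mono (ins_mono z r hF) hc⟩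
  · rintro S T hST ⟨x, hx, y, hy, hc⟩
    refine ⟨x, hx, y, hy, conn_mono ?_ hc⟩
    intro c hc
    exact ⟨hST hc, hc.2⟩
  · intro S
    unfold Lk
    rw [ins_ins]

end Pool.Agent.H57.LP
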