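import Pool.Agent.H62.LP.T1

set_option autoImplicit false

open MeasureTheory ProbabilityTheory Filter Topology
open scoped ENNReal NNReal

namespace Pool.Agent.H57.LP

open Pool.Agent.H62.LP

open Classical in
theorem pf_MRG : T_MRG := by
  intro Λ _ q I
  unfold pois
  refine Measure.eq_infinitePi _ (fun s t ht => ?_)
  have hmeas : Measurable (fun (p : (Λ → ℕ) × (Λ → ℕ)) c => if c ∈ I then p.1 c else p.2 c) := by
    rw [measurable_pi_iff]
    intro c
    by_cases hc : c ∈ I
    · simp only [hc, if_true]
      exact (measurable_pi_apply c).comp measurable_fst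
    · simp only [hc, if_false]
      exact (measurable_pi_apply c).comp measurable_snd
  rw [Measure.map_apply hmeas (.pi s.countable_toSet fun _ _ => ht _)]
  have hpre : (fun (p : (Λ → ℕ) × (Λ → ℕ)) c => if c ∈ I then p.1 c else p.2 c) ⁻¹'
      (Set.pi (s : Set Λ) t) =
      (Set.pi ((s.filter (fun c => c ∈ I) : Finset Λ) : Set Λ) t) ×ˢ
        (Set.pi ((s.filter (fun c => ¬ c ∈ I) : Finset Λ) : Set Λ) t) := by
    ext p
    simp only [Set.mem_preimage, Set.mem_pi, Set.mem_prod, Finset.mem_coe, Finset.mem_filter]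
    constructor
    · intro h
      refine ⟨fun c hc => ?_, fun c hc => ?_⟩
      · have := h c hc.1
        rwa [if_pos hc.2] at this
      · have := h c hc.1
        rwa [if_neg hc.2] at this
    · rintro ⟨h1, h2⟩ c hc
      by_cases hI : c ∈ I
      · rw [if_pos hI]
        exact h1 c ⟨hc, hI⟩
      · rw [if_neg hI]
        exact h2 c ⟨hc, hI⟩
  rw [hpre, Measure.prod_prod, Measure.infinitePi_pi _ (fun i _ => ht i),
    Measure.infinitePi_pi _ (fun i _ => ht i)]
  exact Finset.prod_filter_mul_prod_filter_not s (fun c => c ∈ I)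
    (fun c => poissonMeasure (q c) (t c))

end Pool.Agent.H57.LP
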