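import Pool.Agent.H62.LP.T1

set_option autoImplicit false

open MeasureTheory ProbabilityTheory Filter Topology
open scoped ENNReal NNReal

namespace Pool.Agent.H57.LP

open Pool.Agent.H62.LP

theorem pf_PRS : T_PRS := by
  intro Λ _ q
  rw [ae_all_iff]
  intro c
  by_cases hc : q c = 0
  · have hmp := measurePreserving_eval_infinitePi (fun c => poissonMeasure (q c)) c
    have h1 : (pois q) {N : Λ → ℕ | 1 ≤ N c} = 0 := by
      have h2 : {N : Λ → ℕ | 1 ≤ N c} = Function.eval c ⁻¹' {n : ℕ | 1 ≤ n} := rfl
      unfold pois
      rw [h2, hmp.measure_preimage (MeasurableSet.of_discrete).nullMeasurableSet, hc]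
      have h3 : {n : ℕ | 1 ≤ n} = ⋃ k : ℕ, {k + 1} := by
        ext n
        simp only [Set.mem_setOf_eq, Set.mem_iUnion, Set.mem_singleton_iff]
        constructor
        · intro h
          exact ⟨n - 1, by omega⟩
        · rintro ⟨k, hk⟩
          omega
      rw [h3]
      refine measure_iUnion_null (fun k => ?_)
      rw [poissonMeasure_singleton]
      simp
    have h4 : ∀ᵐ N ∂(pois q), ¬ (1 ≤ N c) := by
      rw [ae_iff]
      simp only [not_not]
      exact h1
    filter_upwards [h4] with N hN h
    exact absurd h hN
  · exact Eventually.of_forall (fun N _ => hc)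

end Pool.Agent.H57.LP
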